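import Pool.Agent.Helper61.EP.StL

/-!
# Project EP (MP_cb927e_an), module LZF: Fourier transforms of the difference operators
-/

set_option autoImplicit false

open MeasureTheory Set Filter Topology
open scoped ENNReal RealInnerProductSpace FourierTransform

namespace Pool.Agent.Helper33.EPL

open Pool.Agent.Helper61.EPL Pool.Agent.Helper20.RG Pool.Agent.Helper68.EP
open Pool.Agent.Helper20.RL (RQ Rich BM Fml Hit)
open Pool.Agent.Helper61.EP (trS Ex2 Yc Zc Ec am cutf)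
open Pool.Agent.Helper68.LM (Pl BB Bd Av HL ft fm DQ)

private theorem bb_int_LZF (g : Pl → ℝ) (hg : BB g) : Integrable g := by
  obtain ⟨hm, K, hK, hs⟩ := hg
  have h1 : Integrable (indicator (Metric.closedBall (0 : Pl) K) fun _ => K) :=
    (integrable_indicator_iff Metric.isClosed_closedBall.measurableSet).2
      (integrableOn_const (measure_closedBall_lt_top.ne))
  refine h1.mono' hm.aestronglyMeasurable (Filter.Eventually.of_forall fun x => ?_)
  by_cases hx : x ∈ Metric.closedBall (0 : Pl) K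
  · rw [indicator_of_mem hx, Real.norm_eq_abs]
    exact hK x
  · rw [indicator_of_notMem hx, hs x (by simpa using hx), norm_zero]

private theorem bb_lin_LZF (a b : ℝ) (g h : Pl → ℝ) (hg : BB g) (hh : BB h) :
    BB (fun x => a * g x + b * h x) := by
  obtain ⟨hm, K, hK, hs⟩ := hg
  obtain ⟨hm', K', hK', hs'⟩ := hh
  have hK0 : 0 ≤ K := (abs_nonneg _).trans (hK 0)
  have hK0' : 0 ≤ K' := (abs_nonneg _).trans (hK' 0)
  have ha := abs_nonneg a
  have hb := abs_nonneg b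
  have p1 : 0 ≤ |a| * K := by positivity
  have p2 : 0 ≤ |b| * K' := by positivity
  refine ⟨(hm.const_mul a).add (hm'.const_mul b), |a| * K + |b| * K' + K + K', fun x => ?_,
    fun x hx => ?_⟩
  · have h1 : |a * g x| ≤ |a| * K := by
      rw [abs_mul]
      exact mul_le_mul_of_nonneg_left (hK x) ha
    have h2 : |b * h x| ≤ |b| * K' := by
      rw [abs_mul]
      exact mul_le_mul_of_nonneg_left (hK' x) hb
    have h3 := abs_add_le (a * g x) (b * h x)
    show |a * g x + b * h x| ≤ _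
    linarith
  · have h1 := hs x (by linarith)
    have h2 := hs' x (by linarith)
    simp [h1, h2]

private theorem ft_lin_LZF (a b : ℝ) (g h : Pl → ℝ) (hg : BB g) (hh : BB h) (ξ : Pl) :
    ft (fun x => a * g x + b * h x) ξ = (a : ℂ) * ft g ξ + (b : ℂ) * ft h ξ := by
  have key : ∀ f : Pl → ℝ, BB f → Integrable
      (fun v : Pl => Complex.exp (((-2 * Real.pi * ⟪v, ξ⟫ : ℝ) : ℂ) * Complex.I) • (f v : ℂ)) := by
    intro f hf
    refine ((bb_int_LZF f hf).ofReal (𝕜 := ℂ)).mono ?_ (Filter.Eventually.of_forall fun x => ?_)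
    · have hc : Continuous (fun v : Pl =>
          Complex.exp (((-2 * Real.pi * ⟪v, ξ⟫ : ℝ) : ℂ) * Complex.I)) := by
        fun_prop
      exact hc.aestronglyMeasurable.smul ((bb_int_LZF f hf).ofReal (𝕜 := ℂ)).aestronglyMeasurable
    · rw [norm_smul, Complex.norm_exp_ofReal_mul_I, one_mul]
      exact le_rfl
  unfold ft
  rw [Real.fourier_eq', Real.fourier_eq', Real.fourier_eq', ← integral_const_mul,
    ← integral_const_mul, ← integral_add ((key g hg).const_mul _) ((key h hh).const_mul _)]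
  refine integral_congr_ae (Filter.Eventually.of_forall fun x => ?_)
  simp only [smul_eq_mul]
  push_cast
  ring

private theorem bb_zero_LZF : BB (fun _ : Pl => (0 : ℝ)) :=
  ⟨measurable_const, 0, fun _ => by simp, fun _ _ => rfl⟩

private theorem ft_zero_LZF (ξ : Pl) : ft (fun _ : Pl => (0 : ℝ)) ξ = 0 := by
  unfold ft
  rw [Real.fourier_eq']
  simp

private theorem sum_LZF (S : Finset ℕ) (F : ℕ → Pl → ℝ) (hF : ∀ u ∈ S, BB (F u)) :
    BB (fun x => ∑ u ∈ S, F u x) ∧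
      ∀ ξ : Pl, ft (fun x => ∑ u ∈ S, F u x) ξ = ∑ u ∈ S, ft (F u) ξ := by
  classical
  induction S using Finset.induction_on with
  | empty =>
    simp only [Finset.sum_empty]
    exact ⟨bb_zero_LZF, ft_zero_LZF⟩
  | insert a S ha ih =>
    obtain ⟨h1, h2⟩ := ih fun u hu => hF u (Finset.mem_insert_of_mem hu)
    have h3 := hF a (Finset.mem_insert_self a S)
    have e : (fun x => ∑ u ∈ insert a S, F u x) =
        fun x => 1 * F a x + 1 * ∑ u ∈ S, F u x := by
      ext x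
      rw [Finset.sum_insert ha, one_mul, one_mul]
    rw [e]
    refine ⟨bb_lin_LZF 1 1 _ _ h3 h1, fun ξ => ?_⟩
    rw [ft_lin_LZF 1 1 _ _ h3 h1, Finset.sum_insert ha, h2 ξ]
    push_cast
    ring

private theorem bb_ind_LZF {g : Pl → ℝ} (hg : BB g) {S : Set Pl} (hS : MeasurableSet S) :
    BB (S.indicator g) := by
  obtain ⟨mg, K1, b1, z1⟩ := hg
  have k1 : 0 ≤ K1 := le_trans (abs_nonneg _) (b1 0)
  refine ⟨mg.indicator hS, K1, fun x => ?_, fun x hx => ?_⟩
  · by_cases h : x ∈ S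
    · rw [indicator_of_mem h]; exact b1 x
    · rw [indicator_of_notMem h]; simpa using k1
  · by_cases h : x ∈ S
    · rw [indicator_of_mem h]; exact z1 x hx
    · rw [indicator_of_notMem h]

private theorem yh_cont_LZF (s : ℝ) (c : Pl) (m : ℕ) (ℓ : ℝ) : Continuous (Yh s c m ℓ) := by
  unfold Yh
  have hs := Real.continuous_sinc
  have h0 : Continuous fun ξ : Pl => ξ 0 := by fun_prop
  have h1 : Continuous fun ξ : Pl => ξ 1 := by fun_prop
  refine Continuous.mul (by fun_prop) (Complex.continuous_ofReal.comp ?_)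
  refine (hs.comp (by fun_prop)).mul ((hs.comp ?_).mul (hs.comp ?_))
  · exact continuous_const.mul h0
  · exact continuous_const.mul h1

private theorem cut_LZF (f : Pl → ℝ) (l : ℤ) (u : ℕ) (x : Pl) :
    cutf f l u x = ∑ v ∈ Finset.range u, (Gf f (l + (v : ℤ))).indicator f x := by
  induction u with
  | zero =>
    rw [Finset.sum_range_zero]
    unfold cutf
    rw [indicator_of_notMem]
    rintro ⟨h1, h2⟩
    simp only [Nat.cast_zero, add_zero] at h2
    exact absurd h1 (not_le.mpr h2)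
  | succ u ih =>
    rw [Finset.sum_range_succ, ← ih]
    have hle : (2 : ℝ) ^ l ≤ (2 : ℝ) ^ (l + (u : ℤ)) :=
      zpow_le_zpow_right₀ (by norm_num) (by omega)
    have hle2 : (2 : ℝ) ^ (l + (u : ℤ)) ≤ (2 : ℝ) ^ (l + (u : ℤ) + 1) :=
      zpow_le_zpow_right₀ (by norm_num) (by omega)
    have e : l + ((u + 1 : ℕ) : ℤ) = l + (u : ℤ) + 1 := by push_cast; ring
    unfold cutf
    rw [e]
    by_cases h1 : (2 : ℝ) ^ l ≤ f x
    · rcases lt_or_ge (f x) ((2 : ℝ) ^ (l + (u : ℤ))) with h2 | h2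
      · rw [indicator_of_mem (show x ∈ {x | (2 : ℝ) ^ l ≤ f x ∧ f x < (2 : ℝ) ^ (l + (u : ℤ) + 1)}
          from ⟨h1, lt_of_lt_of_le h2 hle2⟩),
          indicator_of_mem (show x ∈ {x | (2 : ℝ) ^ l ≤ f x ∧ f x < (2 : ℝ) ^ (l + (u : ℤ))}
          from ⟨h1, h2⟩), indicator_of_notMem, add_zero]
        intro h3
        exact absurd h3.1 (not_le.mpr h2)
      · rw [indicator_of_notMem (show x ∉ {x | (2 : ℝ) ^ l ≤ f x ∧ f x < (2 : ℝ) ^ (l + (u : ℤ))}
          from fun h3 => absurd h2 (not_le.mpr h3.2)), zero_add]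
        rcases lt_or_ge (f x) ((2 : ℝ) ^ (l + (u : ℤ) + 1)) with h4 | h4
        · rw [indicator_of_mem (show x ∈ {x | (2 : ℝ) ^ l ≤ f x ∧ f x < (2 : ℝ) ^ (l + (u : ℤ) + 1)}
            from ⟨h1, h4⟩), indicator_of_mem (show x ∈ Gf f (l + (u : ℤ)) from ⟨h2, h4⟩)]
        · rw [indicator_of_notMem (show x ∉ {x | (2 : ℝ) ^ l ≤ f x ∧
              f x < (2 : ℝ) ^ (l + (u : ℤ) + 1)} from fun h5 => absurd h4 (not_le.mpr h5.2)),
            indicator_of_notMem (show x ∉ Gf f (l + (u : ℤ)) from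
              fun h5 => absurd h4 (not_le.mpr h5.2))]
    · rw [indicator_of_notMem (show x ∉ {x | (2 : ℝ) ^ l ≤ f x ∧
          f x < (2 : ℝ) ^ (l + (u : ℤ) + 1)} from fun h5 => h1 h5.1),
        indicator_of_notMem (show x ∉ {x | (2 : ℝ) ^ l ≤ f x ∧ f x < (2 : ℝ) ^ (l + (u : ℤ))}
          from fun h5 => h1 h5.1),
        indicator_of_notMem (show x ∉ Gf f (l + (u : ℤ)) from fun h5 => h1 (hle.trans h5.1))]
      rw [add_zero]

theorem hLZF (_hPT : Pool.Agent.Helper20.RG.StPT) (_hMEA : Pool.Agent.Helper20.RG.StMEA)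
    (hYB : Pool.Agent.Helper20.RG.StYB) : Pool.Agent.Helper61.EPL.StLZF := by
  refine ⟨?_, sum_LZF, ?_, cut_LZF, ?_⟩
  · intro φ τ c hG u k g hg
    have hpos : (0 : ℝ) < (2 : ℝ) ^ 0 := by norm_num
    have hY : ∀ (j m : ℕ), BB (Y (τ (tm u j)) (ce c φ u j) m ((2 : ℝ) ^ 0) k g) ∧
        ∀ ξ : Pl, ft (Y (τ (tm u j)) (ce c φ u j) m ((2 : ℝ) ^ 0) k g) ξ =
          Yh (τ (tm u j)) (ce c φ u j) m ((2 : ℝ) ^ 0) ((2 : ℝ) ^ k • ξ) * ft g ξ := by
      intro j m
      have h := hYB (τ (tm u j)) (ce c φ u j) m ((2 : ℝ) ^ 0) k g (hG.1 _) hpos hg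
      exact ⟨h.1, h.2.1⟩
    set F : ℕ → Pl → ℝ := fun j => Z (τ (tm u j)) (ce c φ u j) (mm τ u j)
      (mm τ (u - 1) (j / 2)) ((2 : ℝ) ^ 0) k g with hFdef
    have eF : ∀ j, F j = fun x => 1 * Y (τ (tm u j)) (ce c φ u j) (mm τ u j) ((2 : ℝ) ^ 0) k g x +
        (-1) * Y (τ (tm u j)) (ce c φ u j) (mm τ (u - 1) (j / 2)) ((2 : ℝ) ^ 0) k g x := by
      intro j
      ext x
      simp only [hFdef, Z]
      ring
    have hFB : ∀ j, BB (F j) := by
      intro j
      rw [eF]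
      exact bb_lin_LZF _ _ _ _ (hY _ _).1 (hY _ _).1
    have hFf : ∀ j ξ, ft (F j) ξ = Zh (τ (tm u j)) (ce c φ u j) (mm τ u j)
        (mm τ (u - 1) (j / 2)) ((2 : ℝ) ^ 0) ((2 : ℝ) ^ k • ξ) * ft g ξ := by
      intro j ξ
      rw [eF, ft_lin_LZF _ _ _ _ (hY _ _).1 (hY _ _).1, (hY _ _).2, (hY _ _).2]
      unfold Zh
      push_cast
      ring
    obtain ⟨hS1, hS2⟩ := sum_LZF (Finset.range (2 ^ u)) F fun j _ => hFB j
    have eZ : Zc c φ τ u k g = fun x => (1 / (2 : ℝ) ^ u) * ∑ j ∈ Finset.range (2 ^ u), F j x +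
        0 * ∑ j ∈ Finset.range (2 ^ u), F j x := by
      ext x
      simp only [Zc, hFdef]
      ring
    rw [eZ]
    refine ⟨bb_lin_LZF _ _ _ _ hS1 hS1, fun ξ => ?_⟩
    rw [ft_lin_LZF _ _ _ _ hS1 hS1, hS2 ξ]
    have e2 : (2 : ℝ) ^ (-(u : ℝ)) = 1 / (2 : ℝ) ^ u := by
      rw [Real.rpow_neg (by norm_num), Real.rpow_natCast, one_div]
    have ham : 0 ≤ am c φ τ u ((2 : ℝ) ^ k • ξ) := Finset.sum_nonneg fun j _ => norm_nonneg _
    rw [← ofReal_norm, ← ofReal_norm, ← ENNReal.ofReal_mul (by positivity)]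
    apply ENNReal.ofReal_le_ofReal
    have e3 : ((1 / (2 : ℝ) ^ u : ℝ) : ℂ) * ∑ j ∈ Finset.range (2 ^ u), ft (F j) ξ +
        ((0 : ℝ) : ℂ) * ∑ j ∈ Finset.range (2 ^ u), ft (F j) ξ =
        ((1 / (2 : ℝ) ^ u : ℝ) : ℂ) * (∑ j ∈ Finset.range (2 ^ u),
          Zh (τ (tm u j)) (ce c φ u j) (mm τ u j) (mm τ (u - 1) (j / 2)) ((2 : ℝ) ^ 0)
            ((2 : ℝ) ^ k • ξ)) * ft g ξ := by
      rw [Complex.ofReal_zero, zero_mul, add_zero, mul_assoc, Finset.sum_mul]
      congr 1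
      exact Finset.sum_congr rfl fun j _ => hFf j ξ
    rw [e3, norm_mul, norm_mul, e2]
    refine mul_le_mul_of_nonneg_right ?_ (norm_nonneg _)
    rw [Complex.norm_real, Real.norm_of_nonneg (by positivity)]
    refine mul_le_mul_of_nonneg_left ?_ (by positivity)
    exact norm_sum_le _ _
  · intro φ τ c u
    unfold am
    refine continuous_finsetSum _ fun j _ => ?_
    unfold Zh
    exact ((yh_cont_LZF _ _ _ _).sub (yh_cont_LZF _ _ _ _)).norm
  · intro f hf l
    have hm := hf.1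
    have h1 : ∀ a b : ℝ, MeasurableSet {x : Pl | a ≤ f x ∧ f x < b} := fun a b =>
      (measurableSet_le measurable_const hm).inter (measurableSet_lt hm measurable_const)
    exact ⟨bb_ind_LZF hf (h1 _ _), fun u => bb_ind_LZF hf (h1 _ _)⟩

end Pool.Agent.Helper33.EPL
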